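import Pool.Agent.X253.SF.Sub
import Pool.Agent.X253.C3.Cor3
import Pool.Agent.X253.RK.A6

/-!
# The curves over all the subfields of the fields `ℚ(ω, ∛m : m ∈ S)`
-/

set_option autoImplicit false
set_option linter.all false

namespace Pool.Agent.X253.SF

open NumberField IsDedekindDomain WeierstrassCurve
open Pool.Agent.Y692.QS (Ei w)
open Pool.Agent.Y703.CT (Cls NoSplit)
open Pool.Agent.Y703.CT
open Pool.Agent.TH841.NF (Sc)
open Pool.Agent.TH841.NF.D (Sha)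
open Pool.Agent.X253.C3
open Pool.Agent.X253.RK
open Pool.Agent.X253.MN (ker_of_ns finK)
open Pool.Agent.X253.JC (tw GA tw_cls)
open scoped Classical

/-- the curves over `ℚ(ω)` -/
theorem sha_tw {K : Type} [Field K] [NumberField K] (j : Ei ≃+* 𝓞 K) {N : ℕ} (hC : Cls N)
    (hN : NoSplit N) (k : ℕ) (x : Sha (Ec ((sgn3 N * N : ℤ) : K))) (hx : 3 ^ k • x = 0) :
    x = 0 := by
  have key : ∀ (k : ℕ) (x : Sha (Ec ((sgn3 N * N : ℤ) : K))), 3 ^ k • x = 0 → x = 0 := by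
    obtain ⟨J, hJf, hJn, π, e, hdt, hk, hpm⟩ := ker_of_ns hC hN
    have h9 := nine_nat hC hpm
    have hT := ((tri_iffE j hdt h9).2 hk).2
    have h1 := sgn_val hdt hC.1.2.1 hpm
    have h3 : ((j (pD π e) : 𝓞 K) : K) = ((sgn3 N * N : ℤ) : K) := by
      rw [h1, map_intCast]
      exact map_intCast (algebraMap (𝓞 K) K) _
    rw [← h3]
    exact hT
  exact key k x hx

lemma sc_ec {F : Type} [Field F] {a b u : F} (hu : u ≠ 0) (h : b = a * u ^ 3) :
    Sc (RingHom.id F) u (Ec a) (Ec b) := by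
  refine ⟨hu, ?_, ?_, ?_, ?_, ?_⟩
  · change (0 : F) = 0 * _
    rw [zero_mul]
  · change (0 : F) = 0 * _
    rw [zero_mul]
  · exact h
  · change (0 : F) = 0 * _
    rw [zero_mul]
  · change (0 : F) = 0 * _
    rw [zero_mul]

/-- **The main theorem on one curve and one field.** -/
theorem mainS {S : Finset ℕ} (h0 : ∀ m ∈ S, m ≠ 0)
    (h9 : ∀ m ∈ S, ∀ p : ℕ, p.Prime → p ∣ m → p % 9 = 1) (hI : Ind (fun i : S => (i : ℕ)))
    {D : ℕ} (hD : Cls D) (hTD : ∀ t ∈ TT S, ¬ t ∣ D)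
    (hG : GA (TT S) (Finset.univ.image (aT S)) D)
    (F : Type) [Field F] [NumberField F] (J : F) (hJ2 : J ^ 2 + J + 1 = 0)
    (x : S → F) (hx : ∀ i, x i ^ 3 = ((i : ℕ) : F))
    (hgen : ∀ L : Subfield F, J ∈ L → (∀ i, x i ∈ L) → L = ⊤)
    (K : Type) [Field K] [NumberField K] [Algebra K F] :
    Finite (Ec ((D : ℕ) : K)).toAffine.Point ∧ ∃ M : ℕ, ∀ (k : ℕ) (y : Sha (Ec ((D : ℕ) : K))),
      3 ^ k • y = 0 → 3 ^ M • y = 0 := by
  have hl0 : ∀ i : S, (i : ℕ) ≠ 0 := fun i => h0 i.1 i.2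
  have hT : ∀ t ∈ TT S, t.Prime ∧ t % 9 = 1 := by
    intro t ht
    have hp := Nat.prime_of_mem_primeFactors ht
    obtain ⟨m, hm, hmt⟩ := (hp.prime.dvd_finsetProd_iff _).1 (Nat.dvd_of_mem_primeFactors ht)
    exact ⟨hp, h9 m hm t hp hmt⟩
  obtain ⟨K₀, _, _, _, j, hK2, hjJ⟩ := sub_field hJ2
  have hJ3 := J3 hJ2
  set I : K₀ := ((j w : 𝓞 K₀) : K₀) with hI'
  have hI2 : I ^ 2 + I + 1 = 0 := by
    have h1 : (w : Ei) ^ 2 + w + 1 = 0 := by decide
    have h2 := congrArg (fun t : Ei => ((j t : 𝓞 K₀) : K₀)) h1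
    simp only [map_add, map_pow, map_one, map_zero] at h2
    exact h2
  have hJJ : ∀ L : Subfield F, algebraMap K₀ F I ∈ L → J ∈ L := by
    intro L h
    rcases hjJ with h1 | h1
    · rw [← h1]; exact h
    · have h4 : J = (algebraMap K₀ F I) ^ 2 := by
        rw [h1]
        linear_combination (-J) * hJ3
      rw [h4]
      exact pow_mem h 2
  have hgenF : ∀ L : Subfield F, (∀ k : K₀, algebraMap K₀ F k ∈ L) → (∀ i, x i ∈ L) →
      L = ⊤ := fun L h1 h2 => hgen L (hJJ L (h1 _)) h2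
  have hgood : ∀ ε : S → Fin 3, Cls (tw (TT S) D (aT S ε)) ∧ NoSplit (tw (TT S) D (aT S ε)) :=
    fun ε => ⟨tw_cls hT hD hTD _, hG _ (Finset.mem_image_of_mem _ (Finset.mem_univ ε))⟩
  have hn0 : ∀ ε : S → Fin 3, ((nT S ε : ℕ) : K₀) ≠ 0 := fun ε => by
    have h1 : nT S ε ≠ 0 :=
      Finset.prod_ne_zero_iff.2 fun t ht => pow_ne_zero _ (hT t ht).1.ne_zero
    exact_mod_cast h1
  have hxK : ∀ i : S, x i ^ 3 = algebraMap K₀ F ((((i : ℕ) : ℕ)) : K₀) := fun i => by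
    rw [hx, map_natCast]
  have hprod : ∀ ε : S → Fin 3, ((D : ℕ) : K₀) * ∏ i : S, (((i : ℕ) : ℕ) : K₀) ^ (ε i : ℕ) =
      ((tw (TT S) D (aT S ε) : ℕ) : K₀) * ((nT S ε : ℕ) : K₀) ^ 3 := by
    intro ε
    have h2 := congrArg (Nat.cast : ℕ → K₀) (tw_nT h0 D ε)
    rw [Nat.cast_mul, Nat.cast_pow] at h2
    rw [h2]
    unfold DN
    push_cast
    rfl
  have hs0 : ((sgn3 D : ℤ) : K₀) ≠ 0 := by
    unfold sgn3
    split_ifs <;> norm_num
  have hD0 : ((D : ℕ) : K₀) ≠ 0 := by exact_mod_cast hD.1.1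
  have hsg : ∀ ε : S → Fin 3, sgn3 (tw (TT S) D (aT S ε)) = sgn3 D := by
    intro ε
    have h31 : ∀ i : TT S, (i : ℕ) % 3 = 1 := fun i => by
      have := (hT i.1 i.2).2
      omega
    have h1 : tw (TT S) D (aT S ε) = DN D (fun t : TT S => (t : ℕ)) (aT S ε) := rfl
    unfold sgn3
    rw [h1, prod_mod3 h31]
  constructor
  · -- the points
    have hF : Finite (Ec (algebraMap K₀ F ((D : ℕ) : K₀))).toAffine.Point := by
      refine pts_fin I hI2 (fun i : S => (((i : ℕ) : ℕ) : K₀))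
        (fun i => by exact_mod_cast hl0 i) x hxK hgenF ((D : ℕ) : K₀) hD0 (fun ε => ?_)
      have h1 := finK j (hgood ε).1 (hgood ε).2
      rw [hprod]
      refine fin_sc (ι := RingHom.id K₀) (u := (((nT S ε : ℕ) : K₀))⁻¹)
        (sc_ec (inv_ne_zero (hn0 ε)) ?_) h1
      rw [mul_assoc, ← mul_pow, mul_inv_cancel₀ (hn0 ε), one_pow, mul_one]
    rw [map_natCast] at hF
    refine fin_sc (ι := algebraMap K F) (u := 1) ?_ hF
    refine ⟨one_ne_zero, ?_, ?_, ?_, ?_, ?_⟩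
    · change (0 : F) = algebraMap K F 0 * _
      rw [map_zero, zero_mul]
    · change (0 : F) = algebraMap K F 0 * _
      rw [map_zero, zero_mul]
    · change ((D : ℕ) : F) = algebraMap K F ((D : ℕ) : K) * 1 ^ 3
      rw [map_natCast, one_pow, mul_one]
    · change (0 : F) = algebraMap K F 0 * _
      rw [map_zero, zero_mul]
    · change (0 : F) = algebraMap K F 0 * _
      rw [map_zero, zero_mul]
  · -- the group over `F`
    have hF := cub (K := K₀) (F := F) I hI2 (fun i : S => (((i : ℕ) : ℕ) : K₀))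
      (fun i => by exact_mod_cast hl0 i) x hxK hgenF
      (((sgn3 D : ℤ) : K₀) * ((D : ℕ) : K₀)) (mul_ne_zero hs0 hD0) (fun ε => by
        have h1 := sha_tw j (hgood ε).1 (hgood ε).2
        have h2 : (((sgn3 D : ℤ) : K₀) * ((D : ℕ) : K₀)) *
            ∏ i : S, (((i : ℕ) : ℕ) : K₀) ^ (ε i : ℕ) =
            ((sgn3 (tw (TT S) D (aT S ε)) * (tw (TT S) D (aT S ε) : ℕ) : ℤ) : K₀) *
              ((nT S ε : ℕ) : K₀) ^ 3 := by
          rw [mul_assoc, hprod, hsg]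
          push_cast
          ring
        refine sha_scale (u := ((nT S ε : ℕ) : K₀)) ?_ h1
        exact sc_ec (hn0 ε) h2)
    -- the descent to `K`
    obtain ⟨e, he⟩ := exists_e3 (K := K) (F := F)
    have hsF : ((sgn3 D : ℤ) : F) * ((sgn3 D : ℤ) : F) = 1 := by
      unfold sgn3
      split_ifs <;> norm_num
    have hsF0 : ((sgn3 D : ℤ) : F) ≠ 0 := left_ne_zero_of_mul_eq_one hsF
    have S0 : Sc (RingHom.id F) ((sgn3 D : ℤ) : F)
        (Ec (algebraMap K₀ F (((sgn3 D : ℤ) : K₀) * ((D : ℕ) : K₀))))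
        ((Ec ((D : ℕ) : K)).baseChange F) := by
      refine ⟨hsF0, ?_, ?_, ?_, ?_, ?_⟩
      · change algebraMap K F 0 = (0 : F) * _
        rw [map_zero, zero_mul]
      · change algebraMap K F 0 = (0 : F) * _
        rw [map_zero, zero_mul]
      · change algebraMap K F ((D : ℕ) : K) =
          (algebraMap K₀ F (((sgn3 D : ℤ) : K₀) * ((D : ℕ) : K₀))) * ((sgn3 D : ℤ) : F) ^ 3
        rw [map_mul, map_natCast, map_natCast, map_intCast]
        linear_combination (-((D : ℕ) : F) * (((sgn3 D : ℤ) : F) * ((sgn3 D : ℤ) : F) + 1)) * hsF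
      · change algebraMap K F 0 = (0 : F) * _
        rw [map_zero, zero_mul]
      · change algebraMap K F 0 = (0 : F) * _
        rw [map_zero, zero_mul]
    exact sha_sub e he S0 Nat.prime_three (Fintype.card S) hF

end Pool.Agent.X253.SF
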