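import Pool.Agent.Y715.CS.Main

/-!
# The restriction of the Tate-Shafarevich group to an extension `F / K` of number fields

The map between the completions is adapted from `TH115/TC/Compl`, the rest from `Y682/Rst` (base field
`ℚ`).
-/

set_option autoImplicit false
set_option linter.all false

open IsDedekindDomain WithZero Filter Topology MonoidWithZeroHom NumberField WeierstrassCurve

namespace Pool.Agent.X253.SF

section compl

variable {A F B M : Type*} [CommRing A] [IsDedekindDomain A] [Field F] [Algebra A F]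
  [IsFractionRing A F] [CommRing B] [IsDedekindDomain B] [Field M] [Algebra B M]
  [IsFractionRing B M] (v : HeightOneSpectrum A) (w : HeightOneSpectrum B) (f : F →+* M)
  (h1 : ∀ x, v.valuation F x ≤ 1 → w.valuation M (f x) ≤ 1)
  (h2 : ∀ x, v.valuation F x < 1 → w.valuation M (f x) < 1)

include h1 h2 in
theorem exp_bound {π : F} (hπ : v.valuation F π = exp (-1 : ℤ)) (n : ℕ) (x : F)
    (hx : v.valuation F x < v.valuation F (π ^ n)) :
    w.valuation M (f x) ≤ exp (-(n : ℤ)) := by
  have hπ0 : π ≠ 0 := by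
    rintro rfl
    rw [map_zero] at hπ
    exact exp_ne_zero hπ.symm
  have e : x = π ^ n * (x / π ^ n) := by
    field_simp
  have h3 : v.valuation F (x / π ^ n) ≤ 1 := by
    rw [map_div₀]
    have hp : v.valuation F (π ^ n) ≠ 0 := (Valuation.ne_zero_iff _).2 (pow_ne_zero n hπ0)
    exact (div_le_one₀ (zero_lt_iff.2 hp)).2 hx.le
  have h4 : w.valuation M (f π) ≤ exp (-1 : ℤ) := by
    have h5 := h2 π (by rw [hπ, ← exp_zero, exp_lt_exp]; norm_num)
    by_cases h0 : w.valuation M (f π) = 0
    · rw [h0]; exact zero_le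
    · have h6 : exp (log (w.valuation M (f π))) = w.valuation M (f π) := exp_log h0
      rw [← h6, ← exp_zero, exp_lt_exp] at h5
      rw [← h6, exp_le_exp]
      omega
  rw [e, map_mul f, map_mul, map_pow f, map_pow]
  calc w.valuation M (f π) ^ n * w.valuation M (f (x / π ^ n))
      ≤ exp (-1 : ℤ) ^ n * 1 := mul_le_mul' (pow_le_pow_left₀ zero_le h4 n) (h1 _ h3)
    _ = exp (-(n : ℤ)) := by
      rw [mul_one, ← exp_nsmul]
      congr 1
      simp

/-- The field with the topology of the valuation. -/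
noncomputable def wf : WithVal (v.valuation F) →+* w.adicCompletion M :=
  ((algebraMap M (w.adicCompletion M)).comp f).comp (WithVal.equiv (v.valuation F)).toRingHom

include h1 h2 in
theorem wf_cont : Continuous (wf v w f) := by
  have key : ContinuousAt (wf v w f).toAddMonoidHom 0 := by
    show Tendsto (wf v w f) (𝓝 0) (𝓝 (wf v w f 0))
    rw [map_zero]
    intro s hs
    obtain ⟨γ, hγ⟩ := Valued.mem_nhds_zero.1 hs
    have hg : ValueGroup₀.embedding γ.1 ≠ 0 := by
      rw [Ne, map_eq_zero]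
      exact γ.ne_zero
    obtain ⟨n, hn, -⟩ := exists_exp_neg_natCast_lt_and_lt hg hg
    obtain ⟨π, hπ⟩ := v.valuation_exists_uniformizer F
    have hπ0 : π ≠ 0 := by
      rintro rfl
      rw [map_zero] at hπ
      exact exp_ne_zero hπ.symm
    have hne : (Valued.v (R := WithVal (v.valuation F))).restrict
        (WithVal.toVal (v.valuation F) (π ^ n)) ≠ 0 := by
      rw [Valuation.ne_zero_iff]
      intro h
      exact pow_ne_zero n hπ0 ((WithVal.toVal_eq_zero _ _).1 h)
    rw [Filter.mem_map, Valued.mem_nhds_zero]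
    refine ⟨Units.mk0 _ hne, fun x hx => hγ ?_⟩
    have hx' : Valued.v x < Valued.v (WithVal.toVal (v.valuation F) (π ^ n)) :=
      (Valuation.restrict_lt_iff _).1 hx
    show (Valued.v (R := w.adicCompletion M)).restrict (wf v w f x) < γ
    rw [Valuation.restrict_lt_iff_lt_embedding]
    refine lt_of_le_of_lt ?_ hn
    have e : Valued.v (wf v w f x) = w.valuation M (f x.ofVal) :=
      HeightOneSpectrum.valuedAdicCompletion_eq_valuation' w (f x.ofVal)
    rw [e]
    exact exp_bound v w f h1 h2 hπ n _ hx'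
  exact continuous_of_continuousAt_zero (wf v w f).toAddMonoidHom key

include h1 h2 in
/-- The map of the completions. -/
theorem exists_compl_map : ∃ j : v.adicCompletion F →+* w.adicCompletion M,
    ∀ x : F, j (algebraMap F (v.adicCompletion F) x) = algebraMap M (w.adicCompletion M) (f x) := by
  have hc := wf_cont v w f h1 h2
  set j0 := UniformSpace.Completion.extensionHom (wf v w f) hc with hj0
  set j : v.adicCompletion F →+* w.adicCompletion M :=
    j0.comp (HeightOneSpectrum.adicCompletion.equiv F v).toRingHom with hj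
  have hjc : Continuous j :=
    (UniformSpace.Completion.continuous_extension (f := wf v w f)).comp
      (HeightOneSpectrum.adicCompletion.continuous_toCompletion F v)
  have hjx : ∀ x : F, j (algebraMap F (v.adicCompletion F) x) =
      algebraMap M (w.adicCompletion M) (f x) := by
    intro x
    exact UniformSpace.Completion.extensionHom_coe (wf v w f) hc (WithVal.toVal _ x)
  exact ⟨j, hjx⟩

end compl

section place

variable {K F : Type} [Field K] [NumberField K] [Field F] [NumberField F] [Algebra K F]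

/-- the completion of `K` at the place below a finite place of `F` -/
theorem place_down (w : HeightOneSpectrum (𝓞 F)) : ∃ (v : HeightOneSpectrum (𝓞 K))
    (θ : v.adicCompletion K →+* w.adicCompletion F),
    ∀ x : K, θ (algebraMap K _ x) = algebraMap F _ (algebraMap K F x) := by
  have hne : w.asIdeal.under (𝓞 K) ≠ ⊥ := fun h =>
    w.ne_bot (Ideal.eq_bot_of_comap_eq_bot (R := 𝓞 K) h)
  have hpr : (w.asIdeal.under (𝓞 K)).IsPrime := by
    have := w.isPrime
    infer_instance
  let v : HeightOneSpectrum (𝓞 K) := ⟨w.asIdeal.under (𝓞 K), hpr, hne⟩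
  have hmem : ∀ x : 𝓞 K, x ∈ v.asIdeal ↔ algebraMap (𝓞 K) (𝓞 F) x ∈ w.asIdeal := fun x => Iff.rfl
  have hone : ∀ x : 𝓞 K, x ∉ v.asIdeal → w.valuation F (algebraMap K F (x : K)) = 1 := by
    intro x hx
    have h1 : algebraMap (𝓞 K) (𝓞 F) x ∉ w.asIdeal := hx
    exact (HeightOneSpectrum.valuation_eq_one_iff_notMem (K := F) w).2 h1
  have hle : ∀ x : 𝓞 K, w.valuation F (algebraMap K F (x : K)) ≤ 1 := fun x =>
    HeightOneSpectrum.valuation_le_one (K := F) w (algebraMap (𝓞 K) (𝓞 F) x)
  have key : ∀ x : K, v.valuation K x ≤ 1 → ∃ a b : 𝓞 K, b ∉ v.asIdeal ∧ x * (b : K) = a := by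
    intro x hx
    obtain ⟨a, b, hba⟩ := HeightOneSpectrum.exists_primeCompl_mul_eq_of_integer v x hx
    exact ⟨a, b, b.2, hba⟩
  have h1 : ∀ x, v.valuation K x ≤ 1 → w.valuation F (algebraMap K F x) ≤ 1 := by
    intro x hx
    obtain ⟨a, b, hb, hab⟩ := key x hx
    have h2 := congrArg (fun t => w.valuation F (algebraMap K F t)) hab
    simp only [map_mul] at h2
    rw [hone b hb, mul_one] at h2
    rw [h2]
    exact hle a
  have h2 : ∀ x, v.valuation K x < 1 → w.valuation F (algebraMap K F x) < 1 := by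
    intro x hx
    obtain ⟨a, b, hb, hab⟩ := key x hx.le
    have h3 := congrArg (fun t => v.valuation K t) hab
    simp only [map_mul] at h3
    have h4 : v.valuation K (b : K) = 1 := (HeightOneSpectrum.valuation_eq_one_iff_notMem (K := K) v).2 hb
    rw [h4, mul_one] at h3
    have h5 : a ∈ v.asIdeal := by
      rw [h3] at hx
      exact (HeightOneSpectrum.valuation_lt_one_iff_mem (K := K) v a).1 hx
    have h6 := congrArg (fun t => w.valuation F (algebraMap K F t)) hab
    simp only [map_mul] at h6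
    rw [hone b hb, mul_one] at h6
    rw [h6]
    exact (HeightOneSpectrum.valuation_lt_one_iff_mem (K := F) w (algebraMap (𝓞 K) (𝓞 F) a)).2 h5
  obtain ⟨θ, hθ⟩ := exists_compl_map v w (algebraMap K F) h1 h2
  exact ⟨v, θ, hθ⟩

end place

section rs

open Pool.Agent.TH841.SH.D (Pt act Gal Coch IsCoc IsCob LocTriv cob)
open Pool.Agent.TH841.NF (Sc tm tm_some tm_act act_tm tm_tm tm_congr act_some' pt_ext act_id act_act
  aL cor cor_coc cor_cob cor_add cor_loc cor_zero_of mem_H sec sec_spec sec_one coc_fin coc_of_fin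
  aut_of_two Loc)
open Pool.Agent.TH841.NF.D (Sha shaCoc IsShaCoc)
open Pool.Agent.Y715.CS

variable {K F : Type} [Field K] [Field F] [Algebra K F]
  {W : WeierstrassCurve K} {W' : WeierstrassCurve F} {u : F}

/-- the inverse scaling, after any homomorphism -/
theorem sc_inv (S0 : Sc (RingHom.id F) u W' (W.baseChange F)) {L L' : Type} [Field L] [Algebra K L]
    [Field L'] [Algebra F L'] (φ : L →+* L')
    (hφ : ∀ x : K, φ (algebraMap K L x) = algebraMap F L' (algebraMap K F x)) :
    Sc φ (algebraMap F L' u)⁻¹ (W.baseChange L) (W'.baseChange L') := by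
  have hu : algebraMap F L' u ≠ 0 := (map_ne_zero _).2 S0.hu
  have h1 : algebraMap K F W.a₁ = W'.a₁ * u := S0.h1
  have h2 : algebraMap K F W.a₂ = W'.a₂ * u ^ 2 := S0.h2
  have h3 : algebraMap K F W.a₃ = W'.a₃ * u ^ 3 := S0.h3
  have h4 : algebraMap K F W.a₄ = W'.a₄ * u ^ 4 := S0.h4
  have h6 : algebraMap K F W.a₆ = W'.a₆ * u ^ 6 := S0.h6
  refine ⟨inv_ne_zero hu, ?_, ?_, ?_, ?_, ?_⟩
  · change algebraMap F L' W'.a₁ = φ (algebraMap K L W.a₁) * _
    rw [hφ, h1, map_mul, mul_assoc, mul_inv_cancel₀ hu, mul_one]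
  · change algebraMap F L' W'.a₂ = φ (algebraMap K L W.a₂) * _
    rw [hφ, h2, map_mul, map_pow, mul_assoc, ← mul_pow, mul_inv_cancel₀ hu, one_pow, mul_one]
  · change algebraMap F L' W'.a₃ = φ (algebraMap K L W.a₃) * _
    rw [hφ, h3, map_mul, map_pow, mul_assoc, ← mul_pow, mul_inv_cancel₀ hu, one_pow, mul_one]
  · change algebraMap F L' W'.a₄ = φ (algebraMap K L W.a₄) * _
    rw [hφ, h4, map_mul, map_pow, mul_assoc, ← mul_pow, mul_inv_cancel₀ hu, one_pow, mul_one]
  · change algebraMap F L' W'.a₆ = φ (algebraMap K L W.a₆) * _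
    rw [hφ, h6, map_mul, map_pow, mul_assoc, ← mul_pow, mul_inv_cancel₀ hu, one_pow, mul_one]

variable (e : AlgebraicClosure F ≃+* AlgebraicClosure K)
  (he : ∀ x : K, e (algebraMap F _ (algebraMap K F x)) = algebraMap K _ x)
  (S0 : Sc (RingHom.id F) u W' (W.baseChange F))

/-- the restriction of a cochain -/
noncomputable def rs (f : Coch W) : Coch W' := fun σ => tm (scI e he S0) (f (cQ e he σ))

lemma rs_add (f f' : Coch W) : rs e he S0 (f + f') = rs e he S0 f + rs e he S0 f' := by
  funext σ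
  exact map_add _ _ _

lemma rs_act (σ : Gal F) (P : Pt W (AlgebraicClosure K)) :
    tm (scI e he S0) (act W (cQ e he σ).toAlgHom P) =
      act W' σ.toAlgHom (tm (scI e he S0) P) := by
  have h := inv_act e he S0 (cQ_fx e he σ) P
  rw [cF_cQ] at h
  exact h

lemma rs_cob {f : Coch W} (hf : IsCob W f) : IsCob W' (rs e he S0 f) := by
  obtain ⟨P, hP⟩ := hf
  refine ⟨tm (scI e he S0) P, fun σ => ?_⟩
  unfold rs
  rw [hP, map_sub, rs_act e he S0]

lemma rs_coc {f : Coch W} (hf : IsCoc W f) : IsCoc W' (rs e he S0 f) := by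
  classical
  obtain ⟨S, hS⟩ := coc_fin hf
  refine coc_of_fin ?_ (S.image e.symm) ?_
  · intro σ τ
    have h1 : cQ e he (σ * τ) = cQ e he σ * cQ e he τ := by
      refine AlgEquiv.ext fun x => ?_
      change e ((σ * τ) (e.symm x)) = e (σ (e.symm (e (τ (e.symm x)))))
      rw [RingEquiv.symm_apply_apply]
      rfl
    unfold rs
    rw [h1, hf.2, map_add, rs_act e he S0]
  · intro σ hσ
    unfold rs
    rw [hS, map_zero]
    intro x hx
    change e (σ (e.symm x)) = x
    rw [hσ _ (Finset.mem_image_of_mem _ hx), RingEquiv.apply_symm_apply]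

lemma rs_loc {Kv : Type} [Field Kv] [Algebra K Kv] {Fv : Type} [Field Fv] [Algebra F Fv]
    (θ : Kv →+* Fv) (hθ : ∀ x : K, θ (algebraMap K Kv x) = algebraMap F Fv (algebraMap K F x))
    {f : Coch W} (hf : LocTriv W Kv f) : LocTriv W' Fv (rs e he S0 f) := by
  intro ι
  let i1 : Algebra Kv (AlgebraicClosure Fv) := ((algebraMap Fv (AlgebraicClosure Fv)).comp θ).toAlgebra
  let θ' : AlgebraicClosure Kv →ₐ[Kv] AlgebraicClosure Fv := IsAlgClosed.lift
  have hθ' : ∀ y : Kv, θ' (algebraMap Kv _ y) = algebraMap Fv _ (θ y) := fun y => θ'.commutes y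
  let ι₀ : AlgebraicClosure K →ₐ[K] AlgebraicClosure Kv := IsAlgClosed.lift
  have hFF : ∀ z : F, algebraMap F (AlgebraicClosure Fv) z =
      algebraMap Fv (AlgebraicClosure Fv) (algebraMap F Fv z) := fun z =>
    IsScalarTower.algebraMap_apply F Fv (AlgebraicClosure Fv) z
  have hKK : ∀ z : K, algebraMap K (AlgebraicClosure Kv) z =
      algebraMap Kv (AlgebraicClosure Kv) (algebraMap K Kv z) := fun z =>
    IsScalarTower.algebraMap_apply K Kv (AlgebraicClosure Kv) z
  have hesym : ∀ x : K, e.symm (algebraMap K (AlgebraicClosure K) x) =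
      algebraMap F (AlgebraicClosure F) (algebraMap K F x) := by
    intro x
    rw [← he, RingEquiv.symm_apply_apply]
  have hagree : ∀ x : K, θ' (algebraMap K (AlgebraicClosure Kv) x) =
      algebraMap F (AlgebraicClosure Fv) (algebraMap K F x) := by
    intro x
    rw [hKK, hθ', hθ, hFF]
  obtain ⟨h₀, hh₀⟩ := aut_of_two
    ((θ' : AlgebraicClosure Kv →+* AlgebraicClosure Fv).comp
      (ι₀ : AlgebraicClosure K →+* AlgebraicClosure Kv))
    ((ι : AlgebraicClosure F →+* AlgebraicClosure Fv).comp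
      (e.symm : AlgebraicClosure K →+* AlgebraicClosure F)) (fun x => by
      change θ' (ι₀ (algebraMap K _ x)) = ι (e.symm (algebraMap K _ x))
      rw [ι₀.commutes, hagree, hesym, ι.commutes])
  let ι₁ : AlgebraicClosure K →ₐ[K] AlgebraicClosure Kv := ι₀.comp h₀.toAlgHom
  have hι : ∀ x, ι (e.symm x) = θ' (ι₁ x) := hh₀
  obtain ⟨P₀, hP₀⟩ := hf ι₁
  have S1 : Sc (θ' : AlgebraicClosure Kv →+* AlgebraicClosure Fv)
    (algebraMap F (AlgebraicClosure Fv) u)⁻¹
    (W.baseChange (AlgebraicClosure Kv)) (W'.baseChange (AlgebraicClosure Fv)) :=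
    sc_inv S0 _ hagree
  refine ⟨tm S1 P₀, fun τ σ hτ => ?_⟩
  obtain ⟨τ₀, hτ₀⟩ := aut_of_two (θ' : AlgebraicClosure Kv →+* AlgebraicClosure Fv)
    (((τ : AlgebraicClosure Fv ≃+* AlgebraicClosure Fv) : AlgebraicClosure Fv →+*
      AlgebraicClosure Fv).comp (θ' : AlgebraicClosure Kv →+* AlgebraicClosure Fv)) (by
      intro y
      change θ' (algebraMap Kv _ y) = τ (θ' (algebraMap Kv _ y))
      rw [hθ', AlgEquiv.commutes])
  have hτ2 : ∀ x, τ (θ' x) = θ' (τ₀ x) := hτ₀
  have hcomp : ∀ x, τ₀ (ι₁ x) = ι₁ (cQ e he σ x) := by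
    intro x
    apply (θ' : AlgebraicClosure Kv →+* AlgebraicClosure Fv).injective
    change θ' (τ₀ (ι₁ x)) = θ' (ι₁ (cQ e he σ x))
    rw [← hτ2, ← hι, hτ, ← hι]
    change _ = ι (e.symm (e (σ (e.symm x))))
    rw [RingEquiv.symm_apply_apply]
  have h1 := hP₀ τ₀ (cQ e he σ) hcomp
  have S2 : Sc ((ι : AlgebraicClosure F →+* AlgebraicClosure Fv).comp
      (e.symm : AlgebraicClosure K →+* AlgebraicClosure F))
      (algebraMap F (AlgebraicClosure Fv) u)⁻¹
    (W.baseChange (AlgebraicClosure K)) (W'.baseChange (AlgebraicClosure Fv)) :=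
    sc_inv S0 _ (fun x => by
      change ι (e.symm (algebraMap K _ x)) = _
      rw [hesym, ι.commutes])
  have h2 : act W' ι (rs e he S0 f σ) = tm S2 (f (cQ e he σ)) :=
    tm_act _ ι S2 (fun x => rfl) (by rw [map_inv₀, ι.commutes]) _
  have h3 : tm S2 (f (cQ e he σ)) = tm S1 (act W ι₁ (f (cQ e he σ))) :=
    (act_tm ι₁ S1 S2 (fun x => (hι x).symm) _).symm
  rw [h2, h3, h1, map_sub]
  congr 1
  have S3 : Sc (((τ : AlgebraicClosure Fv ≃+* AlgebraicClosure Fv) : AlgebraicClosure Fv →+*
      AlgebraicClosure Fv).comp (θ' : AlgebraicClosure Kv →+* AlgebraicClosure Fv))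
      (algebraMap F (AlgebraicClosure Fv) u)⁻¹
      (W.baseChange (AlgebraicClosure Kv)) (W'.baseChange (AlgebraicClosure Fv)) :=
    sc_inv S0 _ (fun x => by
      change τ (θ' (algebraMap K _ x)) = _
      rw [hagree, hFF, AlgEquiv.commutes])
  have h4 : tm S1 (act W (τ₀.toAlgHom.restrictScalars K) P₀) = tm S3 P₀ :=
    act_tm _ S1 S3 (fun x => (hτ2 x).symm) _
  have h5 : act W' (τ.toAlgHom.restrictScalars F) (tm S1 P₀) = tm S3 P₀ :=
    tm_act _ (τ.toAlgHom.restrictScalars F) S3 (fun x => rfl) (by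
      rw [map_inv₀]
      change _ = (τ (algebraMap F (AlgebraicClosure Fv) u))⁻¹
      rw [hFF, AlgEquiv.commutes]) _
  rw [h4, h5]

end rs

end Pool.Agent.X253.SF
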