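import Pool.Agent.X253.SF.Rs

/-!
# The exponent of the primary part of the Tate-Shafarevich group over a subfield
-/

set_option autoImplicit false
set_option linter.all false

open IsDedekindDomain NumberField WeierstrassCurve

namespace Pool.Agent.X253.SF

open Pool.Agent.TH841.SH.D (Pt act Gal Coch IsCoc IsCob LocTriv cob)
open Pool.Agent.TH841.NF (Sc tm tm_some tm_act act_tm tm_tm tm_congr act_some' pt_ext act_id act_act
  aL cor cor_coc cor_cob cor_add cor_loc cor_zero_of mem_H sec sec_spec sec_one coc_fin coc_of_fin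
  aut_of_two Loc)
open Pool.Agent.TH841.NF.D (Sha shaCoc IsShaCoc)
open Pool.Agent.Y715.CS

section inf

open scoped NumberField.LiesOver

variable {K F : Type} [Field K] [NumberField K] [Field F] [NumberField F] [Algebra K F]

/-- the completion of `K` at the place below an infinite place of `F` -/
theorem inf_down (w : InfinitePlace F) : ∃ (v : InfinitePlace K)
    (θ : v.Completion →+* w.Completion),
    ∀ x : K, θ (algebraMap K _ x) = algebraMap F _ (algebraMap K F x) := by
  let v : InfinitePlace K := w.comap (algebraMap K F)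
  have : w.LiesOver v := ⟨rfl⟩
  refine ⟨v, NumberField.LiesOver.completionMap, fun x => ?_⟩
  have h := IsScalarTower.algebraMap_apply K v.Completion w.Completion x
  have h2 : algebraMap K w.Completion x = algebraMap F w.Completion (algebraMap K F x) := by
    apply InfinitePlace.Completion.ext
    rw [InfinitePlace.Completion.algebraMap_toCompletion,
      InfinitePlace.Completion.algebraMap_toCompletion]
    simp [UniformSpace.Completion.algebraMap_def, WithAbs.algebraMap_left_apply,
      WithAbs.algebraMap_right_apply]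
  rw [h2] at h
  exact h.symm

end inf

section main

variable {K F : Type} [Field K] [NumberField K] [Field F] [NumberField F] [Algebra K F]
  (e : AlgebraicClosure F ≃+* AlgebraicClosure K)
  (he : ∀ x : K, e (algebraMap F _ (algebraMap K F x)) = algebraMap K _ x)
  {W : WeierstrassCurve K} {W' : WeierstrassCurve F} {u : F}
  (S0 : Sc (RingHom.id F) u W' (W.baseChange F))

lemma rs_sha {f : Coch W} (hf : IsShaCoc W f) : IsShaCoc W' (rs e he S0 f) := by
  refine ⟨rs_coc e he S0 hf.1, fun w => ?_, fun w => ?_⟩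
  · obtain ⟨v, θ, hθ⟩ := place_down (K := K) w
    exact rs_loc e he S0 θ hθ (hf.2.1 v)
  · obtain ⟨v, θ, hθ⟩ := inf_down (K := K) w
    exact rs_loc e he S0 θ hθ (hf.2.2 v)

lemma cQ_cF {g : Gal K} (h : Fx e g) : cQ e he (cF e g) = g := by
  refine AlgEquiv.ext fun x => ?_
  change e (cF e g (e.symm x)) = g x
  rw [e_cF e h, RingEquiv.apply_symm_apply]

lemma tr_rs (f : Coch W) {g : Gal K} (h : Fx e g) : tr e he S0 (rs e he S0 f) g = f g := by
  unfold tr rs
  rw [inv_right e he S0, cQ_cF e he h]

variable [Fintype (Gal K ⧸ HF e)]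

/-- corestriction of a restriction -/
lemma Cor_rs {f : Coch W} (hf : IsCoc W f) (g : Gal K) :
    Cor e he S0 (rs e he S0 f) g = (Fintype.card (Gal K ⧸ HF e)) • f g +
      (act W g.toAlgHom (∑ q : Gal K ⧸ HF e, f (sec (HF e) q)) -
        ∑ q : Gal K ⧸ HF e, f (sec (HF e) q)) := by
  unfold Cor cor
  have h1 : ∀ q : Gal K ⧸ HF e, (1 : Gal K →* ℤ) (sec (HF e) (g • q)) •
      aK W (sec (HF e) (g • q)) (tr e he S0 (rs e he S0 f)
        ((sec (HF e) (g • q))⁻¹ * g * sec (HF e) q)) =
      f g + (act W g.toAlgHom (f (sec (HF e) q)) - f (sec (HF e) (g • q))) := by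
    intro q
    have h2 := mem_H (s := sec (HF e)) (sec_spec (HF e)) g q
    rw [tr_rs e he S0 f h2]
    have h3 : f (sec (HF e) (g • q) * ((sec (HF e) (g • q))⁻¹ * g * sec (HF e) q)) =
      f (sec (HF e) (g • q)) + aK W (sec (HF e) (g • q))
        (f ((sec (HF e) (g • q))⁻¹ * g * sec (HF e) q)) := hf.2 _ _
    have h4 : sec (HF e) (g • q) * ((sec (HF e) (g • q))⁻¹ * g * sec (HF e) q) =
      g * sec (HF e) q := by group
    rw [h4, hf.2] at h3
    have h5 : ∀ x : Pt W (AlgebraicClosure K), (1 : Gal K →* ℤ) (sec (HF e) (g • q)) • x = x :=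
      fun x => one_smul ℤ x
    rw [h5]
    rw [eq_sub_of_add_eq' h3.symm]
    abel
  rw [Finset.sum_congr rfl fun q _ => h1 q, Finset.sum_add_distrib, Finset.sum_sub_distrib,
    Finset.sum_const, Finset.card_univ, map_sum]
  congr 2
  exact Equiv.sum_comp (MulAction.toPerm g : Equiv.Perm (Gal K ⧸ HF e)) (fun q : Gal K ⧸ HF e =>
      f (sec (HF e) q))

end main

/-- `p ^ m N` kills the `p`-primary part, `N` the index of the Galois group of `F` -/
theorem sha_subN {K F : Type} [Field K] [NumberField K] [Field F] [NumberField F] [Algebra K F]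
    (e : AlgebraicClosure F ≃+* AlgebraicClosure K)
    (he : ∀ x : K, e (algebraMap F _ (algebraMap K F x)) = algebraMap K _ x)
    {W : WeierstrassCurve K} {W' : WeierstrassCurve F} {u : F}
    (S0 : Sc (RingHom.id F) u W' (W.baseChange F)) [Fintype (Gal K ⧸ HF e)] {p : ℕ} (m : ℕ)
    (hyp : ∀ (k : ℕ) (y : Sha W'), p ^ k • y = 0 → p ^ m • y = 0) (k : ℕ) (x : Sha W)
    (hx : p ^ k • x = 0) : (p ^ m * Fintype.card (Gal K ⧸ HF e)) • x = 0 := by
  classical
  set N := Fintype.card (Gal K ⧸ HF e) with hN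
  induction x using QuotientAddGroup.induction_on with
  | H f =>
    have h2 : IsCob W (p ^ k • (f : Coch W)) := (QuotientAddGroup.eq_zero_iff (p ^ k • f)).1 hx
    set g : shaCoc W' := ⟨rs e he S0 (f : Coch W), rs_sha e he S0 f.2⟩ with hg
    have hns : ∀ n : ℕ, rs e he S0 (n • (f : Coch W)) = n • rs e he S0 (f : Coch W) := by
      intro n
      funext σ
      exact map_nsmul (tm (scI e he S0)) n _
    have h3 : (p ^ k • (QuotientAddGroup.mk g : Sha W')) = 0 := by
      refine (QuotientAddGroup.eq_zero_iff (p ^ k • g)).2 ?_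
      change IsCob W' (p ^ k • rs e he S0 (f : Coch W))
      rw [← hns]
      exact rs_cob e he S0 h2
    have h4 := hyp k _ h3
    have h5 : IsCob W' (p ^ m • rs e he S0 (f : Coch W)) :=
      (QuotientAddGroup.eq_zero_iff (p ^ m • g)).1 h4
    have h6 : IsCob W (Cor e he S0 (rs e he S0 (p ^ m • (f : Coch W)))) := by
      rw [hns]
      exact Cor_cob e he S0 h5
    have hcoc : IsCoc W (p ^ m • (f : Coch W)) := (p ^ m • f).2.1
    refine (QuotientAddGroup.eq_zero_iff ((p ^ m * N) • f)).2 ?_
    change IsCob W ((p ^ m * N) • (f : Coch W))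
    obtain ⟨P, hP⟩ := h6
    refine ⟨P - ∑ q : Gal K ⧸ HF e, (p ^ m • (f : Coch W)) (sec (HF e) q), fun σ => ?_⟩
    have h7 := Cor_rs e he S0 hcoc σ
    rw [hP σ] at h7
    have h8 : ((p ^ m * N) • (f : Coch W)) σ = N • ((p ^ m • (f : Coch W)) σ) := by
      change (p ^ m * N) • ((f : Coch W) σ) = N • (p ^ m • ((f : Coch W) σ))
      rw [mul_comm, mul_smul]
    rw [h8, map_sub]
    have h9 := eq_sub_of_add_eq h7.symm
    rw [h9]
    abel

/-- **Subfields.** If `3 ^ m` kills the 3-primary part of `Ш` over `F` then a power of `3` kills the one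
over `K`. -/
theorem sha_sub {K F : Type} [Field K] [NumberField K] [Field F] [NumberField F] [Algebra K F]
    (e : AlgebraicClosure F ≃+* AlgebraicClosure K)
    (he : ∀ x : K, e (algebraMap F _ (algebraMap K F x)) = algebraMap K _ x)
    {W : WeierstrassCurve K} {W' : WeierstrassCurve F} {u : F}
    (S0 : Sc (RingHom.id F) u W' (W.baseChange F)) {p : ℕ} (hp : p.Prime) (m : ℕ)
    (hyp : ∀ (k : ℕ) (y : Sha W'), p ^ k • y = 0 → p ^ m • y = 0) :
    ∃ M : ℕ, ∀ (k : ℕ) (x : Sha W), p ^ k • x = 0 → p ^ M • x = 0 := by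
  classical
  have hfd : FiniteDimensional K F := finKF
  have hfin := HF_finite e he
  let _ : Fintype (Gal K ⧸ HF e) := Fintype.ofFinite _
  set N := Fintype.card (Gal K ⧸ HF e) with hN
  have hN0 : N ≠ 0 := Fintype.card_ne_zero
  obtain ⟨b, c, hc, hbc⟩ := Nat.exists_eq_pow_mul_and_not_dvd hN0 p hp.ne_one
  refine ⟨m + b, fun k x hx => ?_⟩
  -- it is killed by `p ^ m * N`
  have h1 : (p ^ m * N) • x = 0 := sha_subN e he S0 m hyp k x hx
  have hcop : Nat.Coprime c (p ^ k) := by
    refine Nat.Coprime.pow_right k ?_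
    exact ((Nat.Prime.coprime_iff_not_dvd hp).2 hc).symm
  have h2 : c • (p ^ (m + b) • x) = 0 := by
    rw [← mul_smul]
    have : c * p ^ (m + b) = p ^ m * N := by rw [hbc, pow_add]; ring
    rw [this, h1]
  have h3 : p ^ k • (p ^ (m + b) • x) = 0 := by
    rw [smul_comm, hx, smul_zero]
  obtain ⟨s, t, hst⟩ := Nat.isCoprime_iff_coprime.2 hcop
  have h4 := congrArg (fun z : ℤ => z • (p ^ (m + b) • x)) hst
  simp only [add_smul, one_smul] at h4
  have e1 : (s * (c : ℤ)) • (p ^ (m + b) • x) = 0 := by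
    rw [mul_smul, natCast_zsmul, h2, smul_zero]
  have e2 : (t * ((p ^ k : ℕ) : ℤ)) • (p ^ (m + b) • x) = 0 := by
    rw [mul_smul, natCast_zsmul, h3, smul_zero]
  rw [e1, e2, add_zero] at h4
  exact h4.symm

/-- isomorphic models -/
theorem sha_scale {K : Type} [Field K] [NumberField K] {W W' : WeierstrassCurve K} {u : K}
    (S : Sc (RingHom.id K) u W' W) {p : ℕ}
    (hyp : ∀ (k : ℕ) (y : Sha W'), p ^ k • y = 0 → y = 0) (k : ℕ) (x : Sha W)
    (hx : p ^ k • x = 0) : x = 0 := by
  classical
  have he : ∀ x : K, (RingEquiv.refl (AlgebraicClosure K))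
      (algebraMap K _ (algebraMap K K x)) = algebraMap K _ x := fun x => rfl
  have hfin := HF_finite (RingEquiv.refl (AlgebraicClosure K)) he
  let _ : Fintype (Gal K ⧸ HF (K := K) (F := K) (RingEquiv.refl (AlgebraicClosure K))) :=
    Fintype.ofFinite _
  have S0 : Sc (RingHom.id K) u W' (W.baseChange K) := ⟨S.hu, S.h1, S.h2, S.h3, S.h4, S.h6⟩
  have h1 := sha_subN _ he S0 0 (fun k y hy => by rw [pow_zero, one_smul]; exact hyp k y hy) k x hx
  have hsub : Subsingleton
      (Gal K ⧸ HF (K := K) (F := K) (RingEquiv.refl (AlgebraicClosure K))) := by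
    refine ⟨fun a b => ?_⟩
    induction a using QuotientGroup.induction_on with
    | H a =>
      induction b using QuotientGroup.induction_on with
      | H b =>
        rw [QuotientGroup.eq, mem_HF]
        intro x
        exact AlgEquiv.commutes _ x
  have hcard : Fintype.card
      (Gal K ⧸ HF (K := K) (F := K) (RingEquiv.refl (AlgebraicClosure K))) = 1 :=
    le_antisymm (Fintype.card_le_one_iff_subsingleton.2 hsub) Fintype.card_pos
  rw [hcard, pow_zero, one_mul, one_smul] at h1
  exact h1

end Pool.Agent.X253.SF
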